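import Mathlib
import Pool.Agent.Lib_MP_33fb9b_co.Bridge

set_option autoImplicit false

namespace Pool.Agent.Results.MP_33fb9b_co.BelowBeta

/-- `prob P x y` is the probability that `x` comes before `y` in a linear extension of the finite
poset `P` chosen uniformly at random; a linear extension is an order-preserving bijection from `P`
onto `{0, …, |P| - 1}`. -/
noncomputable def prob (P : Type) [Fintype P] [PartialOrder P] (x y : P) : ℝ :=
  (Nat.card {e : P ≃ Fin (Fintype.card P) // Monotone e ∧ e x < e y} : ℝ) /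
    (Nat.card {e : P ≃ Fin (Fintype.card P) // Monotone e} : ℝ)

/-- The balance constant: the maximum over all pairs `(x, y)` of
`min (prob x y) (prob y x)`. -/
noncomputable def balance (P : Type) [Fintype P] [PartialOrder P] : ℝ :=
  ⨆ q : P × P, min (prob P q.1 q.2) (prob P q.2 q.1)

/-- The class `𝒟`: posets isomorphic to a direct (ordinal) sum `S₁ ⊕ ⋯ ⊕ S_k` with `k ≥ 1`, where
each `Sᵢ` is isomorphic to the one-element poset or to the three-element poset with exactly one
relation (the disjoint union of a two-element chain and a point). The direct sum is the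
lexicographic sum over the index chain `Fin k`. -/
def InD (P : Type) [PartialOrder P] : Prop :=
  ∃ (k : ℕ) (S : Fin k → Type) (_ : ∀ i, PartialOrder (S i)), 1 ≤ k ∧
    (∀ i, Nonempty (S i ≃o Fin 1) ∨ Nonempty (S i ≃o (Fin 2 ⊕ Fin 1))) ∧
    Nonempty (P ≃o (Σₗ i, S i))

/-- `P` has width two: some antichain has two elements and none has more. -/
def WidthTwo (P : Type) [PartialOrder P] : Prop :=
  (∃ s : Finset P, IsAntichain (· ≤ ·) (s : Set P) ∧ s.card = 2) ∧
    ∀ s : Finset P, IsAntichain (· ≤ ·) (s : Set P) → s.card ≤ 2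

open Pool.Agent.Lib_MP_33fb9b_co

/-- the underlying set of the counterexample: two chains of sizes 20 and 21 -/
def W : Type := Fin 20 ⊕ Fin 21

noncomputable instance : Fintype W := inferInstanceAs (Fintype (Fin 20 ⊕ Fin 21))

instance : PartialOrder W where
  le x y := x = y ∨ r0 x y
  le_refl x := Or.inl rfl
  le_trans x y z := by
    rintro (rfl | h1) (rfl | h2)
    · exact Or.inl rfl
    · exact Or.inr h2
    · exact Or.inr h1
    · exact Or.inr (r0_trans _ _ _ h1 h2)
  le_antisymm x y := by
    rintro (rfl | h1) (h | h2)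
    · rfl
    · rfl
    · exact h.symm
    · exact absurd (r0_trans _ _ _ h1 h2) (r0_irr _)

/-- the elements of the first chain -/
def aW (p : Fin 20) : W := Sum.inl p
/-- the elements of the second chain -/
def bW (q : Fin 21) : W := Sum.inr q

theorem aW_ne_bW (p : Fin 20) (q : Fin 21) : aW p ≠ bW q := Sum.inl_ne_inr

theorem le_def' (x y : W) : x ≤ y ↔ (x = y ∨ r0 x y) := Iff.rfl

theorem card_W : Fintype.card W = 41 := by
  show Fintype.card (Fin 20 ⊕ Fin 21) = 41
  simp

theorem monotone_iff (e : W ≃ Fin (Fintype.card W)) :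
    Monotone e ↔ ∀ u v : W, r0 u v → e u < e v := by
  constructor
  · intro h u v huv
    have h1 : e u ≤ e v := h (Or.inr huv)
    apply lt_of_le_of_ne h1
    intro h2
    have := e.injective h2
    rw [this] at huv
    exact r0_irr _ huv
  · intro h u v huv
    rcases huv with h1 | h1
    · rw [h1]
    · exact (h u v h1).le

theorem count_total :
    Nat.card {e : W ≃ Fin (Fintype.card W) // Monotone e} = 1583915616 := by
  refine (Nat.card_congr (Equiv.subtypeEquivRight (fun e => monotone_iff e))).trans ?_
  exact (card_equiv_eq_card_list (P := W) r0 r0_irr).trans total_count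

theorem count_AB (p : Fin 20) (q : Fin 21) :
    Nat.card {e : W ≃ Fin (Fintype.card W) // Monotone e ∧
      e (aW p) < e (bW q)} = cAB p.val q.val := by
  refine Eq.trans ?_ ((card_equiv_eq_card_list (P := W) (r1 p q) (compat1 p q).irr).trans
    (r1_count p q))
  apply Nat.card_congr
  apply Equiv.subtypeEquivRight
  intro e
  rw [monotone_iff]
  constructor
  · rintro ⟨h1, h2⟩ u v (h3 | ⟨h3, h4⟩)
    · exact h1 u v h3
    · rw [h3, h4]; exact h2
  · intro h
    exact ⟨fun u v h3 => h u v (Or.inl h3), h _ _ (Or.inr ⟨rfl, rfl⟩)⟩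

theorem count_BA (p : Fin 20) (q : Fin 21) :
    Nat.card {e : W ≃ Fin (Fintype.card W) // Monotone e ∧
      e (bW q) < e (aW p)} = cBA p.val q.val := by
  refine Eq.trans ?_ ((card_equiv_eq_card_list (P := W) (r2 p q) (compat2 p q).irr).trans
    (r2_count p q))
  apply Nat.card_congr
  apply Equiv.subtypeEquivRight
  intro e
  rw [monotone_iff]
  constructor
  · rintro ⟨h1, h2⟩ u v (h3 | ⟨h3, h4⟩)
    · exact h1 u v h3
    · rw [h3, h4]; exact h2
  · intro h
    exact ⟨fun u v h3 => h u v (Or.inl h3), h _ _ (Or.inr ⟨rfl, rfl⟩)⟩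

theorem prob_zero (x y : W) (h : y ≤ x) : prob W x y = 0 := by
  unfold prob
  have : Nat.card {e : W ≃ Fin (Fintype.card W) // Monotone e ∧ e x < e y} = 0 := by
    have : IsEmpty {e : W ≃ Fin (Fintype.card W) // Monotone e ∧ e x < e y} :=
      ⟨fun e => absurd (e.2.1 h) (not_le.mpr e.2.2)⟩
    exact Nat.card_of_isEmpty
  rw [this]
  simp

theorem prob_AB (p : Fin 20) (q : Fin 21) :
    prob W (aW p) (bW q) =
      (cAB p.val q.val : ℝ) / 1583915616 := by
  unfold prob
  rw [count_AB, count_total]
  norm_num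

theorem prob_BA (p : Fin 20) (q : Fin 21) :
    prob W (bW q) (aW p) =
      (cBA p.val q.val : ℝ) / 1583915616 := by
  unfold prob
  rw [count_BA, count_total]
  norm_num

theorem prob_nonneg (x y : W) : 0 ≤ prob W x y := by
  unfold prob
  positivity

theorem min_AB_le (p : Fin 20) (q : Fin 21) :
    min (prob W (aW p) (bW q))
      (prob W (bW q) (aW p)) ≤
      15348247 / 43997656 := by
  have h0 : (15348247 / 43997656 : ℝ) = 552536892 / 1583915616 := by norm_num
  rw [h0, prob_AB, prob_BA]
  rcases small_side p q with h | h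
  · refine (min_le_left _ _).trans ?_
    have : (cAB p.val q.val : ℝ) ≤ 552536892 := by exact_mod_cast h
    gcongr
  · refine (min_le_right _ _).trans ?_
    have : (cBA p.val q.val : ℝ) ≤ 552536892 := by exact_mod_cast h
    gcongr

theorem min_le_all (x y : W) : min (prob W x y) (prob W y x) ≤ 15348247 / 43997656 := by
  by_cases hxy : x ≤ y
  · refine (min_le_right _ _).trans ?_
    rw [prob_zero y x hxy]; norm_num
  by_cases hyx : y ≤ x
  · refine (min_le_left _ _).trans ?_
    rw [prob_zero x y hyx]; norm_num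
  rcases x with a | b <;> rcases y with a' | b'
  · exfalso
    rcases lt_trichotomy a a' with h | h | h
    · exact hxy (Or.inr h)
    · exact hxy (Or.inl (by rw [h]))
    · exact hyx (Or.inr h)
  · exact min_AB_le a b'
  · rw [min_comm]; exact min_AB_le a' b
  · exfalso
    rcases lt_trichotomy b b' with h | h | h
    · exact hxy (Or.inr h)
    · exact hxy (Or.inl (by rw [h]))
    · exact hyx (Or.inr h)

theorem cBA_00 : cBA 0 0 = 1031378724 := by decide +kernel

theorem balance_eq : balance W = 15348247 / 43997656 := by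
  unfold balance
  apply le_antisymm
  · have : Nonempty (W × W) := ⟨((aW 0), (aW 0))⟩
    exact ciSup_le (fun q => min_le_all q.1 q.2)
  · have hb : BddAbove (Set.range fun q : W × W => min (prob W q.1 q.2) (prob W q.2 q.1)) := by
      refine ⟨15348247 / 43997656, ?_⟩
      rintro _ ⟨q, rfl⟩
      exact min_le_all q.1 q.2
    refine le_trans ?_ (le_ciSup hb
      ((aW 0), (bW 0)))
    simp only []
    rw [prob_AB, prob_BA]
    show _ ≤ min ((cAB 0 0 : ℝ) / 1583915616) ((cBA 0 0 : ℝ) / 1583915616)
    rw [cAB_00, cBA_00]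
    norm_num

theorem lt_beta : (15348247 / 43997656 : ℝ) < (5864893 + 27 * √57) / 16812976 := by
  have h : (7.5 : ℝ) ≤ √57 := by
    apply Real.le_sqrt_of_sq_le
    norm_num
  have h2 : (15348247 / 43997656 : ℝ) < (5864893 + 27 * 7.5) / 16812976 := by norm_num
  refine h2.trans_le ?_
  gcongr

/-- in a poset of the class `𝒟` no element is incomparable to three others -/
theorem inD_three {P : Type} [PartialOrder P] (h : InD P) (x y1 y2 y3 : P)
    (h12 : y1 ≠ y2) (h13 : y1 ≠ y3) (h23 : y2 ≠ y3)
    (h1 : ¬ x ≤ y1 ∧ ¬ y1 ≤ x) (h2 : ¬ x ≤ y2 ∧ ¬ y2 ≤ x) (h3 : ¬ x ≤ y3 ∧ ¬ y3 ≤ x) : False := by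
  classical
  obtain ⟨k, S, inst, _, hS, ⟨f⟩⟩ := h
  have key : ∀ y : P, (¬ x ≤ y ∧ ¬ y ≤ x) → ∃ b : S (f x).1, f y = toLex ⟨(f x).1, b⟩ := by
    intro y hy
    have e1 : ¬ f x ≤ f y := fun h => hy.1 (f.le_iff_le.mp h)
    have e2 : ¬ f y ≤ f x := fun h => hy.2 (f.le_iff_le.mp h)
    rw [Sigma.Lex.le_def] at e1 e2
    rw [not_or] at e1 e2
    have hi : (f y).1 = (f x).1 := le_antisymm (not_lt.mp e1.1) (not_lt.mp e2.1)
    rcases hfy : f y with ⟨j, b⟩
    rw [hfy] at hi
    have hi' : j = (f x).1 := hi
    subst hi'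
    exact ⟨b, rfl⟩
  obtain ⟨b1, hb1⟩ := key y1 h1
  obtain ⟨b2, hb2⟩ := key y2 h2
  obtain ⟨b3, hb3⟩ := key y3 h3
  let b0 : S (f x).1 := (f x).2
  have hb0 : f x = toLex ⟨(f x).1, b0⟩ := rfl
  have n01 : b0 ≠ b1 := by
    intro h
    apply h1.1
    have : f x = f y1 := by rw [hb1, ← h]; rfl
    exact (f.injective this).le
  have n02 : b0 ≠ b2 := by
    intro h
    apply h2.1
    have : f x = f y2 := by rw [hb2, ← h]; rfl
    exact (f.injective this).le
  have n03 : b0 ≠ b3 := by
    intro h
    apply h3.1
    have : f x = f y3 := by rw [hb3, ← h]; rfl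
    exact (f.injective this).le
  have n12 : b1 ≠ b2 := by
    intro h
    apply h12
    apply f.injective
    rw [hb1, hb2, h]
  have n13 : b1 ≠ b3 := by
    intro h
    apply h13
    apply f.injective
    rw [hb1, hb3, h]
  have n23 : b2 ≠ b3 := by
    intro h
    apply h23
    apply f.injective
    rw [hb2, hb3, h]
  have hcard : ({b0, b1, b2, b3} : Finset (S (f x).1)).card = 4 := by
    rw [Finset.card_insert_of_notMem, Finset.card_insert_of_notMem, Finset.card_insert_of_notMem,
      Finset.card_singleton]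
    · simpa using n23
    · simp only [Finset.mem_insert, Finset.mem_singleton, not_or]; exact ⟨n12, n13⟩
    · simp only [Finset.mem_insert, Finset.mem_singleton, not_or]; exact ⟨n01, n02, n03⟩
  rcases hS (f x).1 with ⟨⟨g⟩⟩ | ⟨⟨g⟩⟩
  · have h4 := Finset.card_le_card_of_injOn (s := {b0, b1, b2, b3}) (t := Finset.univ) g
      (fun _ _ => Finset.mem_univ _) (fun _ _ _ _ h => g.injective h)
    rw [hcard] at h4
    simp at h4
  · have h4 := Finset.card_le_card_of_injOn (s := {b0, b1, b2, b3}) (t := Finset.univ) g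
      (fun _ _ => Finset.mem_univ _) (fun _ _ _ _ h => g.injective h)
    rw [hcard] at h4
    simp at h4

theorem not_inD : ¬ InD W := by
  intro h
  refine inD_three h (aW 0) (bW 0)
    (bW 1) (bW 2) ?_ ?_ ?_ ?_ ?_ ?_
  · intro h; exact absurd (Sum.inr_injective h) (by decide)
  · intro h; exact absurd (Sum.inr_injective h) (by decide)
  · intro h; exact absurd (Sum.inr_injective h) (by decide)
  · refine ⟨?_, ?_⟩
    · rintro (h | h)
      · exact Sum.inl_ne_inr h
      · exact absurd h (by show ¬ (Up 0 ≤ 0); decide)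
    · rintro (h | h)
      · exact Sum.inr_ne_inl h
      · exact absurd h (by show ¬ (0 < Lw (0 + 1)); decide)
  · refine ⟨?_, ?_⟩
    · rintro (h | h)
      · exact Sum.inl_ne_inr h
      · exact absurd h (by show ¬ (Up 0 ≤ 1); decide)
    · rintro (h | h)
      · exact Sum.inr_ne_inl h
      · exact absurd h (by show ¬ (1 < Lw (0 + 1)); decide)
  · refine ⟨?_, ?_⟩
    · rintro (h | h)
      · exact Sum.inl_ne_inr h
      · exact absurd h (by show ¬ (Up 0 ≤ 2); decide)
    · rintro (h | h)
      · exact Sum.inr_ne_inl h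
      · exact absurd h (by show ¬ (2 < Lw (0 + 1)); decide)

theorem widthTwo : WidthTwo W := by
  classical
  constructor
  · refine ⟨{(aW 0), (bW 0)}, ?_, ?_⟩
    · intro x hx y hy hxy
      rw [Finset.coe_insert, Finset.coe_singleton, Set.mem_insert_iff,
        Set.mem_singleton_iff] at hx hy
      rcases hx with rfl | rfl <;> rcases hy with rfl | rfl
      · exact absurd rfl hxy
      · rintro (h | h)
        · exact Sum.inl_ne_inr h
        · exact absurd h (by show ¬ (Up 0 ≤ 0); decide)
      · rintro (h | h)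
        · exact Sum.inr_ne_inl h
        · exact absurd h (by show ¬ (0 < Lw (0 + 1)); decide)
      · exact absurd rfl hxy
    · rw [Finset.card_insert_of_notMem, Finset.card_singleton]
      rw [Finset.mem_singleton]
      exact Sum.inl_ne_inr
  · intro s hs
    -- colour by chain: each chain contributes at most one element
    by_contra hcon
    have h2 : (Finset.univ : Finset Bool).card < s.card := by
      rw [Finset.card_univ, Fintype.card_bool]; omega
    obtain ⟨x, hx, y, hy, hxy, hf⟩ := Finset.exists_ne_map_eq_of_card_lt_of_maps_to h2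
      (f := fun x : W => Sum.isLeft (x : Fin 20 ⊕ Fin 21)) (fun _ _ => Finset.mem_univ _)
    rcases x with a | b <;> rcases y with a' | b'
    · rcases lt_trichotomy a a' with h | h | h
      · exact hs hx hy hxy (Or.inr h)
      · exact hxy (by rw [h])
      · exact hs hy hx (Ne.symm hxy) (Or.inr h)
    · simp at hf
    · simp at hf
    · rcases lt_trichotomy b b' with h | h | h
      · exact hs hx hy hxy (Or.inr h)
      · exact hxy (by rw [h])
      · exact hs hy hx (Ne.symm hxy) (Or.inr h)

/-- **Theorem.** There is a finite poset outside `𝒟` (even of width two, with 41 elements) whose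
balance constant is `15348247/43997656 ≈ 0.3488424 < β`. Hence `ε = β - 1/3` is not admissible. -/
theorem result : ∃ (P : Type) (_ : Fintype P) (_ : PartialOrder P),
    Fintype.card P = 41 ∧ WidthTwo P ∧ ¬ InD P ∧ balance P = 15348247 / 43997656 ∧
      balance P < (5864893 + 27 * √57) / 16812976 :=
  ⟨W, inferInstance, inferInstance, card_W, widthTwo, not_inD, balance_eq,
    balance_eq ▸ lt_beta⟩

end Pool.Agent.Results.MP_33fb9b_co.BelowBeta
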