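import Mathlib
import Pool.Agent.Lib_MP_33fb9b_gap.Defs
import Pool.Agent.Lib_MP_33fb9b_bft.CMain

set_option autoImplicit false

/-!
# A lower bound for the balance constant of every finite poset

`prob` and `balance` are defined in `Pool.Agent.Lib_MP_33fb9b_gap.Defs`.
-/

namespace Pool.Agent.Results.MP_33fb9b_co.GeneralBound

open Pool.Agent.Gap

/-- Every finite poset which is not a chain has balance constant at least `0.277`. -/
theorem result (P : Type) [Fintype P] [PartialOrder P] (hP : ∃ x y : P, ¬ x ≤ y ∧ ¬ y ≤ x) :
    (0.277 : ℝ) ≤ balance P :=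
  Pool.Agent.BFT.main_bound P hP

end Pool.Agent.Results.MP_33fb9b_co.GeneralBound
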