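import Mathlib
import Pool.Agent.Lib_MP_33fb9b_gap.Defs
import Pool.Agent.Lib_MP_33fb9b_half.Top

set_option autoImplicit false

/-!
# Finite posets with balance constant bounded away from `1/2` are thin

`prob` and `balance` are defined in `Pool.Agent.Lib_MP_33fb9b_gap.Defs`.
-/

namespace Pool.Agent.Results.MP_33fb9b_co.ThinPosets

open Pool.Agent.Gap

/-- For every `d < 1/2` there is `M` such that in every finite poset with balance constant at most
`d` every element is incomparable to at most `M` others. -/
theorem result (d : ℝ) (hd : d < 1 / 2) :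
    ∃ M : ℕ, ∀ (P : Type) [Fintype P] [PartialOrder P], balance P ≤ d →
      ∀ x : P, Nat.card {y : P // ¬ x ≤ y ∧ ¬ y ≤ x} ≤ M :=
  Pool.Agent.Half.main_half d hd

end Pool.Agent.Results.MP_33fb9b_co.ThinPosets
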