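import Mathlib
import Pool.Agent.Lib_MP_33fb9b_gap.Main
import Pool.Agent.Lib_MP_33fb9b_gap.Eval

set_option autoImplicit false

/-!
# A nearly optimal uniform gap for posets of width two, and for all posets with a module of width two

Definitions (in `Pool.Agent.Lib_MP_33fb9b_gap.Defs`): `prob`, `balance`, `InD` (the class `𝒟`),
`WidthLeTwo` (no antichain with more than two elements), `Autonomous` (module).
-/

namespace Pool.Agent.Results.MP_33fb9b_co.WidthTwoGap

open Pool.Agent.Gap

/-- **Uniform gap.** Every nonempty finite poset of width at most two outside the class `𝒟` has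
balance constant at least `0.348842372`. More generally the same bound holds for every finite poset
`P`, of any width, that has a nonempty autonomous subset `M` (for instance a component of `P` for
the direct sum) which has width at most two and is not in the class `𝒟`. -/
theorem result :
    (∀ (P : Type) [Fintype P] [PartialOrder P] [Nonempty P], WidthLeTwo P → ¬ InD P →
      (348842372 : ℝ) / 1000000000 ≤ balance P) ∧
    (∀ (P : Type) [Fintype P] [PartialOrder P] (M : Set P) [Nonempty M],
      Autonomous P M → WidthLeTwo M → ¬ InD M →
      (348842372 : ℝ) / 1000000000 ≤ balance P) := by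
  classical
  have key : ∀ (P : Type) [Fintype P] [PartialOrder P] [Nonempty P], WidthLeTwo P → ¬ InD P →
      (348842372 : ℝ) / 1000000000 ≤ balance P := by
    intro P _ _ _ hw hD
    by_contra hcon
    push Not at hcon
    have h2 : balance P < ((348842372 : ℕ) : ℝ) / ((1000000000 : ℕ) : ℝ) := by
      push_cast
      exact hcon
    have h3 := main_induction 348842372 1000000000 (by norm_num) (by norm_num) (by norm_num)
      Data.tree0 Data.tree1 eval0 eval1 (Fintype.card P) P rfl hw h2
    exact hD h3.inD
  refine ⟨key, ?_⟩
  intro P _ _ M _ hM hw hD
  exact (key M hw hD).trans (balance_autonomous M hM)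

end Pool.Agent.Results.MP_33fb9b_co.WidthTwoGap
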